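import Pool.Agent.TH8.QD.FunEq

/-!
Entire functions with a linear `q`-difference equation.
-/

set_option autoImplicit false

namespace Pool.Agent.TH8.QD

open MvPolynomial Filter Topology Set Metric Pool.Agent.TH143 Pool.Agent.TH143.GT Pool.Agent.W602.GT
  Pool.Agent.W603.BP Pool.Agent.W603.GR Pool.Agent.W603.BPR Pool.Agent.TH143.DE

/-- The function `g` satisfies a linear `q`-difference equation with polynomial coefficients. -/
def QHol (q : ℂ) (g : ℂ → ℂ) : Prop :=
  ∃ (r : ℕ) (a : ℕ → Polynomial ℂ), (∃ k ≤ r, a k ≠ 0) ∧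
    ∀ z, ∑ k ∈ Finset.range (r + 1), (a k).eval z * g (q ^ k * z) = 0

/-- substitution of `c z` -/
noncomputable def psc (c : ℂ) (P : Polynomial ℂ) : Polynomial ℂ :=
  P.comp (Polynomial.C c * Polynomial.X)

theorem psc_eval (c : ℂ) (P : Polynomial ℂ) (z : ℂ) : (psc c P).eval z = P.eval (c * z) := by
  unfold psc
  rw [Polynomial.eval_comp, Polynomial.eval_mul, Polynomial.eval_C, Polynomial.eval_X]

theorem psc_ne {c : ℂ} (hc : c ≠ 0) {P : Polynomial ℂ} (hP : P ≠ 0) : psc c P ≠ 0 := by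
  intro h
  apply hP
  apply Polynomial.funext
  intro x
  have h1 := psc_eval c P (c⁻¹ * x)
  rw [h, Polynomial.eval_zero, mul_inv_cancel_left₀ hc] at h1
  rw [← h1, Polynomial.eval_zero]

theorem QHol.inv {q : ℂ} (hq : q ≠ 0) {g : ℂ → ℂ} (h : QHol q g) : QHol q⁻¹ g := by
  obtain ⟨r, a, ⟨k, hk, hak⟩, h1⟩ := h
  have hqr : (q⁻¹) ^ r ≠ 0 := pow_ne_zero _ (inv_ne_zero hq)
  refine ⟨r, fun j => psc ((q⁻¹) ^ r) (a (r - j)), ⟨r - k, Nat.sub_le _ _, ?_⟩, fun z => ?_⟩
  · apply psc_ne hqr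
    rwa [Nat.sub_sub_self hk]
  · have h2 := h1 ((q⁻¹) ^ r * z)
    rw [← Finset.sum_range_reflect] at h2
    rw [← h2]
    refine Finset.sum_congr rfl fun j hj => ?_
    have hj' : j ≤ r := Nat.lt_succ_iff.1 (Finset.mem_range.1 hj)
    have e1 : r + 1 - 1 - j = r - j := by omega
    rw [psc_eval, e1]
    congr 2
    have h3 : q⁻¹ ^ r = q⁻¹ ^ (r - j) * q⁻¹ ^ j := by
      rw [← pow_add, Nat.sub_add_cancel hj']
    have h4 : q ^ (r - j) * q⁻¹ ^ (r - j) = 1 := by
      rw [← mul_pow, mul_inv_cancel₀ hq, one_pow]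
    rw [h3]
    linear_combination (-(q⁻¹ ^ j * z)) * h4

/-- The function `g` satisfies a `q`-difference equation of order one. -/
def QHyp (q : ℂ) (g : ℂ → ℂ) : Prop :=
  ∃ a b : Polynomial ℂ, a ≠ 0 ∧ ∀ z, a.eval z * g (q * z) = b.eval z * g z

theorem QHyp.inv {q : ℂ} (hq : q ≠ 0) {g : ℂ → ℂ} (hg : Differentiable ℂ g) (h0 : ∃ z, g z ≠ 0)
    (h : QHyp q g) : QHyp q⁻¹ g := by
  obtain ⟨a, b, ha, h1⟩ := h
  have hb : b ≠ 0 := by
    rintro rfl
    -- `a (z) g (q z) = 0`
    have hroots : ({z | a.eval z = 0} : Set ℂ).Finite := by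
      have := a.roots.toFinset.finite_toSet
      refine this.subset fun z hz => ?_
      simp only [Finset.mem_coe, Multiset.mem_toFinset]
      exact (Polynomial.mem_roots ha).2 hz
    have h2 : ∀ z, z ∉ {z | a.eval z = 0} → g (q * z) = 0 := by
      intro z hz
      have h3 := h1 z
      rw [Polynomial.eval_zero, zero_mul] at h3
      exact (mul_eq_zero.1 h3).resolve_left hz
    have h3 : (fun z => g (q * z)) = fun _ => 0 := by
      have hc : Continuous fun z => g (q * z) := hg.continuous.comp (continuous_const.mul continuous_id)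
      have hd : Dense ({z | a.eval z = 0}ᶜ : Set ℂ) := hroots.countable.dense_compl ℂ
      exact Continuous.ext_on hd hc continuous_const fun z hz => h2 z hz
    obtain ⟨z, hz⟩ := h0
    apply hz
    have h4 := congrFun h3 (q⁻¹ * z)
    simpa [mul_inv_cancel_left₀ hq] using h4
  refine ⟨psc q⁻¹ b, psc q⁻¹ a, psc_ne (inv_ne_zero hq) hb, fun z => ?_⟩
  rw [psc_eval, psc_eval]
  have h2 := h1 (q⁻¹ * z)
  rw [mul_inv_cancel_left₀ hq] at h2
  exact h2.symm

/-! ### coefficient algebras -/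

/-- polynomial functions -/
def polS : Subalgebra ℂ (ℂ → ℂ) where
  carrier := {f | ∃ P : Polynomial ℂ, ∀ z, f z = P.eval z}
  mul_mem' := by
    rintro f g ⟨P, hP⟩ ⟨R, hR⟩
    exact ⟨P * R, fun z => by rw [Pi.mul_apply, hP, hR, Polynomial.eval_mul]⟩
  add_mem' := by
    rintro f g ⟨P, hP⟩ ⟨R, hR⟩
    exact ⟨P + R, fun z => by rw [Pi.add_apply, hP, hR, Polynomial.eval_add]⟩
  algebraMap_mem' := fun c => ⟨Polynomial.C c, fun z => by
    rw [Polynomial.eval_C]
    rfl⟩

/-- entire functions -/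
def entS : Subalgebra ℂ (ℂ → ℂ) where
  carrier := {f | Differentiable ℂ f}
  mul_mem' := fun hf hg => Differentiable.mul hf hg
  add_mem' := fun hf hg => Differentiable.add hf hg
  algebraMap_mem' := fun c => differentiable_const c

theorem pol_mem (P : Polynomial ℂ) : (fun z => P.eval z) ∈ polS := ⟨P, fun _ => rfl⟩

theorem pol_le_ent : polS ≤ entS := by
  rintro f ⟨P, hP⟩
  have : f = fun z => P.eval z := funext hP
  rw [this]
  exact P.differentiable

theorem polS_stable (q : ℂ) : Stable univ (fun z => q * z) polS := by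
  refine ⟨fun a ha z _ => ?_, ?_⟩
  · have h1 : Differentiable ℂ a := pol_le_ent ha
    exact h1.analyticAt z
  · rintro a ⟨P, hP⟩
    exact ⟨_, pol_mem (psc q P), fun x _ => by rw [hP, psc_eval]⟩

theorem entS_stable (q : ℂ) : Stable univ (fun z => q * z) entS := by
  refine ⟨fun a ha z _ => ?_, ?_⟩
  · have h1 : Differentiable ℂ a := ha
    exact h1.analyticAt z
  · intro a ha
    have h1 : Differentiable ℂ a := ha
    exact ⟨fun z => a (q * z), h1.comp (differentiable_id.const_mul q), fun x _ => rfl⟩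

/-- the orbit of `1` -/
theorem orb_pow {q : ℂ} (hq0 : q ≠ 0) (hq1 : ‖q‖ ≤ 1) (hqr : ∀ n : ℕ, 0 < n → q ^ n ≠ 1) :
    RelCpt univ (fun m : ℕ => q ^ m) := by
  refine ⟨?_, closedBall 0 1, subset_univ _, isCompact_closedBall _ _, fun m => ?_⟩
  · have key : ∀ m n : ℕ, m < n → q ^ m ≠ q ^ n := by
      intro m n hmn h
      apply hqr (n - m) (by omega)
      have h1 : q ^ n = q ^ m * q ^ (n - m) := by rw [← pow_add]; congr 1; omega
      rw [h1] at h
      have h2 : q ^ m ≠ 0 := pow_ne_zero _ hq0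
      exact (mul_left_cancel₀ h2 (by rw [mul_one]; exact h)).symm
    intro m n h
    rcases lt_trichotomy m n with h1 | h1 | h1
    · exact absurd h (key m n h1)
    · exact h1
    · exact absurd h.symm (key n m h1)
  · rw [mem_closedBall, dist_zero_right, norm_pow]
    exact pow_le_one₀ (norm_nonneg _) hq1

theorem iter_mul (q : ℂ) (k : ℕ) (x : ℂ) : (fun z => q * z)^[k] x = q ^ k * x := by
  induction k with
  | zero => simp
  | succ k ih => rw [Function.iterate_succ_apply', ih]; ring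

theorem pol_ne {P : Polynomial ℂ} (hP : P ≠ 0) : ∃ x ∈ (univ : Set ℂ), P.eval x ≠ 0 := by
  by_contra hcon
  push Not at hcon
  apply hP
  apply Polynomial.funext
  intro x
  rw [hcon x (mem_univ _), Polynomial.eval_zero]

theorem QHol.funEq {q : ℂ} {g : ℂ → ℂ} (h : QHol q g) : FunEq univ (fun z => q * z) polS g := by
  obtain ⟨r, a, ⟨k, hk, hak⟩, h1⟩ := h
  refine ⟨r, fun k z => (a k).eval z, fun k => pol_mem _, ⟨k, hk, pol_ne hak⟩, fun x _ => ?_⟩
  simp only [iter_mul]
  exact h1 x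

theorem QHyp.funHyp {q : ℂ} {g : ℂ → ℂ} (h : QHyp q g) : FunHyp univ (fun z => q * z) polS g := by
  obtain ⟨a, b, ha, h1⟩ := h
  exact ⟨_, pol_mem a, _, pol_mem b, pol_ne ha, fun x _ => h1 x⟩

end Pool.Agent.TH8.QD
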