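import Pool.Agent.TH8.QD.QHol
import Pool.Agent.TH143.Punct

/-!
Growth of entire functions with a linear `q`-difference equation, `|q| ≠ 1`.
-/

set_option autoImplicit false

namespace Pool.Agent.TH8.QD

open MvPolynomial Filter Topology Set Metric Pool.Agent.TH143 Pool.Agent.W603.BP

/-- growth of exponential type zero -/
def Small (g : ℂ → ℂ) : Prop := ∀ ε : ℝ, 0 < ε → ∃ C : ℝ, 0 ≤ C ∧ ∀ z, ‖g z‖ ≤ C * Real.exp (ε * ‖z‖)

theorem Small.add {g g' : ℂ → ℂ} (h : Small g) (h' : Small g') : Small (fun z => g z + g' z) := by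
  intro ε hε
  obtain ⟨C, hC, h1⟩ := h ε hε
  obtain ⟨C', hC', h1'⟩ := h' ε hε
  refine ⟨C + C', add_nonneg hC hC', fun z => (norm_add_le _ _).trans ?_⟩
  rw [add_mul]
  exact add_le_add (h1 z) (h1' z)

theorem Small.mul {g g' : ℂ → ℂ} (h : Small g) (h' : Small g') : Small (fun z => g z * g' z) := by
  intro ε hε
  obtain ⟨C, hC, h1⟩ := h (ε / 2) (half_pos hε)
  obtain ⟨C', hC', h1'⟩ := h' (ε / 2) (half_pos hε)
  refine ⟨C * C', mul_nonneg hC hC', fun z => ?_⟩
  have h2 : Real.exp (ε * ‖z‖) = Real.exp (ε / 2 * ‖z‖) * Real.exp (ε / 2 * ‖z‖) := by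
    rw [← Real.exp_add]
    congr 1
    ring
  rw [norm_mul, h2]
  calc ‖g z‖ * ‖g' z‖ ≤ (C * Real.exp (ε / 2 * ‖z‖)) * (C' * Real.exp (ε / 2 * ‖z‖)) :=
        mul_le_mul (h1 z) (h1' z) (norm_nonneg _) (by positivity)
    _ = C * C' * (Real.exp (ε / 2 * ‖z‖) * Real.exp (ε / 2 * ‖z‖)) := by ring

theorem Small.const (c : ℂ) : Small (fun _ => c) := by
  intro ε hε
  refine ⟨‖c‖, norm_nonneg _, fun z => ?_⟩
  have h1 : (1 : ℝ) ≤ Real.exp (ε * ‖z‖) := Real.one_le_exp (by positivity)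
  nlinarith [norm_nonneg c]

theorem small_form {N : ℕ} {f : ℂ → Fin (N + 1) → ℂ} (hf : ∀ j, Small (fun z => f z j))
    (G : MvPolynomial (Fin (N + 1)) ℂ) : Small (fun z => eval (f z) G) := by
  induction G using MvPolynomial.induction_on with
  | C a =>
    simp only [eval_C]
    exact Small.const a
  | add P R hP hR =>
    simp only [map_add]
    exact hP.add hR
  | mul_X P i hP =>
    simp only [map_mul, eval_X]
    exact hP.mul (hf i)

theorem small_of_qhol_aux {q : ℂ} (hq0 : q ≠ 0) (hq1 : ‖q‖ < 1) {g : ℂ → ℂ}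
    (hg : Continuous g) (h : QHol q g) : Small g := by
  classical
  obtain ⟨r, a, ⟨k, hk, hak⟩, h1⟩ := h
  -- the lowest coefficient
  let T := (Finset.range (r + 1)).filter fun k => a k ≠ 0
  have hT : T.Nonempty := ⟨k, Finset.mem_filter.2 ⟨Finset.mem_range.2 (Nat.lt_succ_of_le hk), hak⟩⟩
  set l := T.min' hT with hl
  have hlT : l ∈ T := T.min'_mem hT
  have hlr : l ≤ r := Nat.lt_succ_iff.1 (Finset.mem_range.1 (Finset.mem_filter.1 hlT).1)
  have hal : a l ≠ 0 := (Finset.mem_filter.1 hlT).2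
  have hlow : ∀ k < l, a k = 0 := by
    intro k hk
    by_contra h0
    have hkT : k ∈ T := Finset.mem_filter.2 ⟨Finset.mem_range.2 (by omega), h0⟩
    exact absurd (T.min'_le k hkT) (not_le.2 hk)
  set n := r - l with hn
  have hql : (q ^ l)⁻¹ ≠ 0 := inv_ne_zero (pow_ne_zero _ hq0)
  set b : ℕ → Polynomial ℂ := fun k => psc ((q ^ l)⁻¹) (a (k + l)) with hb
  have hb0 : b 0 ≠ 0 := by
    rw [hb]
    simp only [zero_add]
    exact psc_ne hql hal
  have h2 : ∀ z, ∑ k ∈ Finset.range (n + 1), (b k).eval z * g (q ^ k * z) = 0 := by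
    intro z
    have h3 := h1 ((q ^ l)⁻¹ * z)
    have h4 : r + 1 = l + (n + 1) := by omega
    rw [h4, Finset.sum_range_add] at h3
    rw [Finset.sum_eq_zero (s := Finset.range l), zero_add] at h3
    · rw [← h3]
      refine Finset.sum_congr rfl fun k _ => ?_
      rw [hb, psc_eval, add_comm k l, pow_add]
      congr 2
      have : q ^ l ≠ 0 := pow_ne_zero _ hq0
      field_simp
    · intro k hk
      rw [hlow k (Finset.mem_range.1 hk), Polynomial.eval_zero, zero_mul]
  -- the coefficients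
  obtain ⟨C, K, hC, hcb⟩ := mero_bound_fin (fun (k : Fin n) w =>
    (b (k + 1)).eval w⁻¹ / (b 0).eval w⁻¹) fun k =>
      (mero_poly_inv (b (k + 1))).fun_div (mero_poly_inv (b 0))
  have hbN : Nz (fun w => (b 0).eval w⁻¹) := by
    intro h0
    apply hb0
    obtain ⟨δ, hδ, h1⟩ := ev_iff.1 h0
    let u : ℕ → ℂ := fun n => ((δ / (n + 2) : ℝ) : ℂ)
    have hpos : ∀ n : ℕ, (0 : ℝ) < δ / (n + 2) := fun n => by positivity
    have hlt : ∀ n : ℕ, δ / ((n : ℝ) + 2) < δ := fun n => by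
      rw [div_lt_iff₀ (by positivity)]
      nlinarith [(Nat.cast_nonneg n : (0 : ℝ) ≤ n)]
    have hmem : ∀ n, u n ∈ PB δ := fun n => by
      refine ⟨?_, ?_⟩
      · change ((δ / (n + 2) : ℝ) : ℂ) ≠ 0
        exact_mod_cast (hpos n).ne'
      · change ‖((δ / (n + 2) : ℝ) : ℂ)‖ < δ
        rw [Complex.norm_real, Real.norm_of_nonneg (hpos n).le]
        exact hlt n
    have hinj : Function.Injective fun n => (u n)⁻¹ := by
      intro a b hab
      have h3 : u a = u b := inv_injective hab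
      have h4 : δ / ((a : ℝ) + 2) = δ / (b + 2) := Complex.ofReal_injective h3
      rw [div_eq_div_iff (by positivity) (by positivity)] at h4
      have h5 := mul_left_cancel₀ hδ.ne' h4
      have h6 : (a : ℝ) = b := by linarith
      exact_mod_cast h6
    apply Polynomial.eq_zero_of_infinite_isRoot
    refine (Set.infinite_range_of_injective hinj).mono ?_
    rintro _ ⟨n, rfl⟩
    exact h1 _ (hmem n)
  obtain ⟨δ, hδ, hall⟩ := ev_iff.1 (hcb.and (mero_ne (mero_poly_inv (b 0)) hbN))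
  set ρ := ‖q‖ with hρ
  have hρ0 : 0 < ρ := norm_pos_iff.2 hq0
  -- the main estimate
  have hmain : ∀ z : ℂ, δ⁻¹ < ‖z‖ → ∀ M : ℝ, 0 ≤ M → (∀ u : ℂ, ‖u‖ ≤ ρ * ‖z‖ → ‖g u‖ ≤ M) →
      ‖g z‖ ≤ n * C * ‖z‖ ^ K * M := by
    intro z hz M hM hu
    have hz0 : 0 < ‖z‖ := (inv_pos.2 hδ).trans hz
    have hzw : z⁻¹ ∈ PB δ := by
      refine ⟨inv_ne_zero (norm_pos_iff.1 hz0), ?_⟩
      rw [norm_inv]
      exact inv_lt_of_inv_lt₀ hδ hz
    obtain ⟨h3, h4⟩ := hall _ hzw
    simp only [inv_inv] at h3 h4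
    have h5 := h2 z
    rw [Finset.sum_range_succ', pow_zero, one_mul] at h5
    have h6 : g z = -∑ k ∈ Finset.range n, ((b (k + 1)).eval z / (b 0).eval z) *
        g (q ^ (k + 1) * z) := by
      apply mul_left_cancel₀ h4
      rw [mul_neg, Finset.mul_sum]
      have h7 : ∑ k ∈ Finset.range n, (b 0).eval z * ((b (k + 1)).eval z / (b 0).eval z *
          g (q ^ (k + 1) * z)) = ∑ k ∈ Finset.range n, (b (k + 1)).eval z *
          g (q ^ (k + 1) * z) := by
        refine Finset.sum_congr rfl fun k _ => ?_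
        field_simp
      rw [h7]
      linear_combination h5
    rw [h6, norm_neg]
    have h8 : ∀ k ∈ Finset.range n, ‖(b (k + 1)).eval z / (b 0).eval z * g (q ^ (k + 1) * z)‖ ≤
        C * ‖z‖ ^ K * M := by
      intro k hk
      rw [norm_mul]
      have h9 := h3 ⟨k, Finset.mem_range.1 hk⟩
      simp only [norm_inv, inv_pow] at h9
      rw [← div_eq_mul_inv, div_le_iff₀ (by positivity)] at h9
      refine mul_le_mul h9 (hu _ ?_) (norm_nonneg _) (by positivity)
      rw [norm_mul, norm_pow]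
      refine mul_le_mul_of_nonneg_right ?_ (norm_nonneg _)
      calc ρ ^ (k + 1) = ρ ^ k * ρ := pow_succ _ _
        _ ≤ 1 * ρ := mul_le_mul_of_nonneg_right (pow_le_one₀ hρ0.le hq1.le) hρ0.le
        _ = ρ := one_mul _
    calc ‖∑ k ∈ Finset.range n, ((b (k + 1)).eval z / (b 0).eval z) * g (q ^ (k + 1) * z)‖
        ≤ ∑ k ∈ Finset.range n, ‖(b (k + 1)).eval z / (b 0).eval z * g (q ^ (k + 1) * z)‖ :=
          norm_sum_le _ _
      _ ≤ ∑ _k ∈ Finset.range n, C * ‖z‖ ^ K * M := Finset.sum_le_sum h8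
      _ = n * C * ‖z‖ ^ K * M := by
          rw [Finset.sum_const, Finset.card_range, nsmul_eq_mul]
          ring
  intro ε hε
  -- the radius
  have htend := tendsto_rpow_mul_exp_neg_mul_atTop_nhds_zero (K : ℝ) ((1 - ρ) * ε)
    (mul_pos (by linarith) hε)
  have hev : ∀ᶠ x : ℝ in atTop, n * C * (x ^ (K : ℝ) * Real.exp (-((1 - ρ) * ε) * x)) < 1 := by
    have h3 := htend.const_mul (n * C : ℝ)
    rw [mul_zero] at h3
    exact h3.eventually_lt_const one_pos
  obtain ⟨R, hR⟩ := eventually_atTop.1 hev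
  set R1 := max (max R δ⁻¹) 1 with hR1
  have hR1R : R ≤ R1 := (le_max_left _ _).trans (le_max_left _ _)
  have hR1δ : δ⁻¹ ≤ R1 := (le_max_right _ _).trans (le_max_left _ _)
  have hR11 : 1 ≤ R1 := le_max_right _ _
  have hkey : ∀ x : ℝ, R1 ≤ x → n * C * x ^ K * Real.exp (ε * (ρ * x)) ≤ Real.exp (ε * x) := by
    intro x hx
    have h3 := (hR x (hR1R.trans hx)).le
    rw [Real.rpow_natCast] at h3
    have h4 : Real.exp (ε * (ρ * x)) = Real.exp (-((1 - ρ) * ε) * x) * Real.exp (ε * x) := by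
      rw [← Real.exp_add]
      congr 1
      ring
    rw [h4]
    calc n * C * x ^ K * (Real.exp (-((1 - ρ) * ε) * x) * Real.exp (ε * x)) =
        n * C * (x ^ K * Real.exp (-((1 - ρ) * ε) * x)) * Real.exp (ε * x) := by ring
      _ ≤ 1 * Real.exp (ε * x) := mul_le_mul_of_nonneg_right h3 (Real.exp_pos _).le
      _ = Real.exp (ε * x) := one_mul _
  obtain ⟨M, hM⟩ := ((isCompact_closedBall (0 : ℂ) R1).image hg).isBounded.exists_norm_le
  have hM' : ∀ z : ℂ, ‖z‖ ≤ R1 → ‖g z‖ ≤ |M| := fun z hz =>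
    (hM _ (mem_image_of_mem _ (mem_closedBall_zero_iff.2 hz))).trans (le_abs_self M)
  have hstep : ∀ m : ℕ, ∀ z : ℂ, ‖z‖ ≤ R1 * (ρ⁻¹) ^ m → ‖g z‖ ≤ |M| * Real.exp (ε * ‖z‖) := by
    intro m
    induction m with
    | zero =>
      intro z hz
      rw [pow_zero, mul_one] at hz
      have h3 : (1 : ℝ) ≤ Real.exp (ε * ‖z‖) := Real.one_le_exp (by positivity)
      have := hM' z hz
      nlinarith [abs_nonneg M]
    | succ m ih =>
      intro z hz
      by_cases hzR : ‖z‖ ≤ R1
      · have h3 : (1 : ℝ) ≤ Real.exp (ε * ‖z‖) := Real.one_le_exp (by positivity)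
        have := hM' z hzR
        nlinarith [abs_nonneg M]
      · push Not at hzR
        have h3 := hmain z (hR1δ.trans_lt hzR) (|M| * Real.exp (ε * (ρ * ‖z‖))) (by positivity) (by
          intro u hu
          have h4 : ‖u‖ ≤ R1 * (ρ⁻¹) ^ m := by
            refine hu.trans ?_
            calc ρ * ‖z‖ ≤ ρ * (R1 * ρ⁻¹ ^ (m + 1)) := mul_le_mul_of_nonneg_left hz hρ0.le
              _ = R1 * ρ⁻¹ ^ m := by
                rw [pow_succ]
                field_simp
          refine (ih u h4).trans ?_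
          have h5 : Real.exp (ε * ‖u‖) ≤ Real.exp (ε * (ρ * ‖z‖)) :=
            Real.exp_le_exp.2 (mul_le_mul_of_nonneg_left hu hε.le)
          exact mul_le_mul_of_nonneg_left h5 (abs_nonneg M))
        refine h3.trans ?_
        calc n * C * ‖z‖ ^ K * (|M| * Real.exp (ε * (ρ * ‖z‖))) =
            |M| * (n * C * ‖z‖ ^ K * Real.exp (ε * (ρ * ‖z‖))) := by ring
          _ ≤ |M| * Real.exp (ε * ‖z‖) := mul_le_mul_of_nonneg_left (hkey _ hzR.le) (abs_nonneg M)
  refine ⟨|M|, abs_nonneg M, fun z => ?_⟩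
  have h3 : Tendsto (fun m : ℕ => R1 * (ρ⁻¹) ^ m) atTop atTop :=
    (tendsto_pow_atTop_atTop_of_one_lt ((one_lt_inv₀ hρ0).2 hq1)).const_mul_atTop (by linarith)
  obtain ⟨m, hm⟩ := (h3.eventually_ge_atTop ‖z‖).exists
  exact hstep m z hm

theorem small_of_qhol {q : ℂ} (hq0 : q ≠ 0) (hq1 : ‖q‖ ≠ 1) {g : ℂ → ℂ}
    (hg : Continuous g) (h : QHol q g) : Small g := by
  rcases lt_or_gt_of_ne hq1 with h1 | h1
  · exact small_of_qhol_aux hq0 h1 hg h
  · refine small_of_qhol_aux (inv_ne_zero hq0) ?_ hg (h.inv hq0)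
    rw [norm_inv]
    exact inv_lt_one_of_one_lt₀ h1

/-- entire functions of exponential type zero without zeros are constant -/
theorem const_of_small {G : ℂ → ℂ} (hG : Differentiable ℂ G) (hne : ∀ z, G z ≠ 0) (h : Small G)
    (z : ℂ) : G z = G 0 := by
  obtain ⟨C1, hC1, h1⟩ := h 1 one_pos
  obtain ⟨l, hl, hGl, -⟩ := log_growth (C := |Real.log (C1 + 1)| + 1) (R0 := 1) (p := 1) hG hne
    (by positivity) (by
      intro z hz
      refine (h1 z).trans ?_
      have h2 : C1 + 1 = Real.exp (Real.log (C1 + 1)) := (Real.exp_log (by positivity)).symm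
      calc C1 * Real.exp (1 * ‖z‖) ≤ (C1 + 1) * Real.exp (1 * ‖z‖) :=
            mul_le_mul_of_nonneg_right (by linarith) (Real.exp_pos _).le
        _ = Real.exp (Real.log (C1 + 1) + 1 * ‖z‖) := by rw [Real.exp_add, ← h2]
        _ ≤ Real.exp ((|Real.log (C1 + 1)| + 1) * ‖z‖ ^ 1) := by
            apply Real.exp_le_exp.2
            have h3 := le_abs_self (Real.log (C1 + 1))
            have h4 := abs_nonneg (Real.log (C1 + 1))
            rw [pow_one]
            nlinarith)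
  have hkey : ∀ ε : ℝ, 0 < ε → ‖l z - l 0‖ ≤ 2 * ε * ‖z‖ := by
    intro ε hε
    obtain ⟨C, hC, h2⟩ := h ε hε
    set c := |Real.log (C + 1)| + |(l 0).re| + 1 with hc
    have hc0 : 0 < c := by positivity
    have hre : ∀ x : ℂ, (l x - l 0).re ≤ ε * ‖x‖ + c := by
      intro x
      have h3 : Real.exp (l x).re ≤ (C + 1) * Real.exp (ε * ‖x‖) := by
        rw [← Complex.norm_exp, ← hGl]
        refine (h2 x).trans ?_
        exact mul_le_mul_of_nonneg_right (by linarith) (Real.exp_pos _).le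
      have h4 : (l x).re ≤ Real.log (C + 1) + ε * ‖x‖ := by
        rw [← Real.exp_le_exp, Real.exp_add, Real.exp_log (by positivity)]
        exact h3
      rw [Complex.sub_re]
      have h5 := le_abs_self (Real.log (C + 1))
      have h6 := neg_abs_le (l 0).re
      linarith
    have hbc : ∀ R : ℝ, ‖z‖ < R → ‖l z - l 0‖ ≤ 2 * (ε * R + c) * ‖z‖ / (R - ‖z‖) := by
      intro R hR
      have hR0 : 0 < R := (norm_nonneg z).trans_lt hR
      have := Complex.borelCaratheodory_zero (f := fun x => l x - l 0) (M := ε * R + c) (R := R)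
        (z := z) (by positivity) ((hl.sub_const _).differentiableOn) (by
          intro x hx
          refine (hre x).trans ?_
          have : ‖x‖ ≤ R := (mem_ball_zero_iff.1 hx).le
          have := mul_le_mul_of_nonneg_left this hε.le
          linarith) hR0 (mem_ball_zero_iff.2 hR) (sub_self _)
      exact this
    have hlim : Tendsto (fun R : ℝ => 2 * (ε * R + c) * ‖z‖ / (R - ‖z‖)) atTop
        (𝓝 (2 * ε * ‖z‖)) := by
      have h3 : Tendsto (fun R : ℝ => 2 * ε * ‖z‖ + (2 * ε * ‖z‖ ^ 2 + 2 * c * ‖z‖) / (R - ‖z‖)) atTop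
          (𝓝 (2 * ε * ‖z‖ + 0)) := by
        refine tendsto_const_nhds.add ?_
        exact (tendsto_atTop_add_const_right _ (-‖z‖) tendsto_id).const_div_atTop _
      rw [add_zero] at h3
      refine h3.congr' ?_
      filter_upwards [eventually_gt_atTop ‖z‖] with R hR
      have : R - ‖z‖ ≠ 0 := by linarith
      field_simp
      ring
    refine ge_of_tendsto hlim ?_
    filter_upwards [eventually_gt_atTop ‖z‖] with R hR
    exact hbc R hR
  have h0 : ‖l z - l 0‖ ≤ 0 := by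
    have hlim : Tendsto (fun ε : ℝ => 2 * ε * ‖z‖) (𝓝[>] 0) (𝓝 0) := by
      have h3 : Tendsto (fun ε : ℝ => 2 * ε * ‖z‖) (𝓝 0) (𝓝 (2 * 0 * ‖z‖)) := by
        apply Continuous.tendsto
        fun_prop
      rw [mul_zero, zero_mul] at h3
      exact h3.mono_left nhdsWithin_le_nhds
    refine ge_of_tendsto hlim ?_
    filter_upwards [self_mem_nhdsWithin] with ε hε
    exact hkey ε hε
  have h1 : l z = l 0 := by
    have := norm_le_zero_iff.1 h0
    exact sub_eq_zero.1 this
  rw [hGl, hGl, h1]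

end Pool.Agent.TH8.QD
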