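import Pool.Agent.TH8.QD.Ent
import Pool.Agent.TH8.QD.Grow

/-!
Entire curves given by linear `q`-difference equations in quasi-projective varieties.
-/

set_option autoImplicit false

namespace Pool.Agent.TH8.QD

open MvPolynomial Filter Topology Set Metric FF Pool.Agent.TH143 Pool.Agent.TH143.GT
  Pool.Agent.W602.GT Pool.Agent.W603.BP Pool.Agent.W603.GR Pool.Agent.W603.BPR Pool.Agent.W603.PV
  Pool.Agent.TH143.DE

variable {N : ℕ} {K : Type} [Field K] [Algebra ℂ K] {w : ℕ} {y : Fin (N + 1) → K}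
  {Q : MvPolynomial (Fin (N + 1)) ℂ} {e : ℕ}
  {f : ℂ → Fin (N + 1) → ℂ} {p : Ideal (MvPolynomial (Fin (N + 1)) ℂ)}

/-- for `|q| ≠ 1` the boundary form is constant along the curve -/
theorem bd_const {q : ℂ} (hq0 : q ≠ 0) (hq1 : ‖q‖ ≠ 1) (hd : ∀ j, Differentiable ℂ (fun z => f z j))
    (hf : ∀ j, QHol q (fun z => f z j)) (hQ : ∀ z, eval (f z) Q ≠ 0) (z : ℂ) :
    eval (f z) Q = eval (f 0) Q :=
  const_of_small (diff_form hd Q) hQ
    (small_form (fun j => small_of_qhol hq0 hq1 (hd j).continuous (hf j)) Q) z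

theorem qhyp_of_norm {q : ℂ} (hq0 : q ≠ 0) (hq : ‖q‖ ≠ 1 ∨ QHyp q (fun z => eval (f z) Q))
    (hd : ∀ j, Differentiable ℂ (fun z => f z j))
    (hf : ∀ j, QHol q (fun z => f z j)) (hQ : ∀ z, eval (f z) Q ≠ 0) :
    QHyp q (fun z => eval (f z) Q) := by
  rcases hq with h | h
  · refine ⟨1, 1, one_ne_zero, fun z => ?_⟩
    have h1 := bd_const hq0 h hd hf hQ (q * z)
    have h2 := bd_const hq0 h hd hf hQ z
    change Polynomial.eval z 1 * eval (f (q * z)) Q = Polynomial.eval z 1 * eval (f z) Q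
    rw [h1, h2]
  · exact h

theorem no_root_of_norm {q : ℂ} (h : ‖q‖ ≠ 1) (n : ℕ) (hn : 0 < n) : q ^ n ≠ 1 := by
  intro h1
  apply h
  have h2 := congrArg norm h1
  rw [norm_pow, norm_one] at h2
  exact (pow_eq_one_iff_of_nonneg (norm_nonneg q) hn.ne').1 h2

/-- **Strongly of log general type implies the Brody property** for curves given by linear
`q`-difference equations. -/
theorem strong_brody_q (hp : IsHomog p) (hQ : Q.IsHomogeneous e) {G : MvPolynomial (Fin (N + 1)) ℂ}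
    (hG : IsForm G) (h : SubLogGT p Q e G) (hf : EntireCurve p Q f) {q : ℂ} (hq0 : q ≠ 0)
    (hqr : ∀ n : ℕ, 0 < n → q ^ n ≠ 1) (hl : ∀ j, QHol q (fun z => f z j))
    (hq : ‖q‖ ≠ 1 ∨ QHyp q (fun z => eval (f z) Q)) (z : ℂ) : eval (f z) G = 0 := by
  by_contra hz
  obtain ⟨hd, hne, hfQ, hnc⟩ := ent_data hf
  have hfa : ∀ j, AnalyticOnNhd ℂ (fun w => f w j) univ := fun j z _ => (hd j).analyticAt z
  obtain ⟨j0, hj0⟩ := Function.ne_iff.1 (hne 0)
  obtain ⟨K, i1, i2, w, y, h1, h2, h3, h4, h5⟩ := exists_closure f isPreconnected_univ hfa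
    ⟨0, mem_univ _, hj0⟩
  have hy : GenPt f univ K w y := ⟨h1, h2, h3, h4⟩
  rcases Nat.eq_zero_or_pos w with hw | hw
  · choose c hc using h5 hw
    obtain ⟨s, t, j, k, hst⟩ := hnc
    apply hst
    rw [hc j s (mem_univ _), hc k t (mem_univ _), hc k s (mem_univ _), hc j t (mem_univ _)]
    ring
  · have hsub := subVar_of_genPt hp hQ hy (fun z _ => (hf.2.1 z).2.1) ⟨0, mem_univ _, hfQ 0⟩
    have hGy : W602.GT.val y G ≠ 0 := by
      intro h0
      exact hz ((hy.rel G hG).1 h0 z (mem_univ z))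
    obtain ⟨r, hr⟩ := fam_q hq0 hqr hd hy hl hQ hne hfQ (qhyp_of_norm hq0 hq hd hl hfQ) hnc
    exact hr (allFlat_gt (hy.inv hd) hQ (h K w y hw hsub hGy) r)

end Pool.Agent.TH8.QD
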