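import Pool.Agent.TH8.QD.QHol

/-!
Entire curves whose coordinates satisfy linear `q`-difference equations.
-/

set_option autoImplicit false

namespace Pool.Agent.TH8.QD

open MvPolynomial Filter Topology Set Metric Pool.Agent.TH143 Pool.Agent.TH143.GT Pool.Agent.W602.GT
  Pool.Agent.W603.BP Pool.Agent.W603.GR Pool.Agent.W603.BPR Pool.Agent.TH143.DE

variable {N : ℕ} {K : Type} [Field K] [Algebra ℂ K] {w : ℕ} {y : Fin (N + 1) → K}
  {Q : MvPolynomial (Fin (N + 1)) ℂ} {e : ℕ} {f : ℂ → Fin (N + 1) → ℂ}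

theorem diff_form (hd : ∀ j, Differentiable ℂ (fun z => f z j)) (G : MvPolynomial (Fin (N + 1)) ℂ) :
    Differentiable ℂ (fun z => eval (f z) G) := fun z =>
  ((eval_an' (S := univ) (fun j z _ => (hd j).analyticAt z) G) z (mem_univ z)).differentiableAt

/-- **Flat quotients are algebraic over the rational functions** -/
theorem flat_alg_aux {q : ℂ} (hq0 : q ≠ 0) (hq1 : ‖q‖ ≤ 1) (hqr : ∀ n : ℕ, 0 < n → q ^ n ≠ 1)
    (hd : ∀ j, Differentiable ℂ (fun z => f z j)) (hy : GenPt f univ K w y)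
    (hf : ∀ j, QHol q (fun z => f z j)) (hQe : Q.IsHomogeneous e)
    (hQ0 : ∃ z, eval (f z) Q ≠ 0) (hQ : QHyp q (fun z => eval (f z) Q))
    {D : ℕ} {g0 g1 : MvPolynomial (Fin (N + 1)) ℂ} (hg0 : g0.IsHomogeneous D)
    (hg1 : g1.IsHomogeneous D) (hn : W602.GT.val y g0 ≠ 0)
    (h : AllFlat Q y (W602.GT.val y g1 / W602.GT.val y g0)) :
    ∃ (D : ℕ) (c : ℕ → Polynomial ℂ), (∃ k ≤ D, c k ≠ 0) ∧ ∀ z,
      ∑ k ∈ Finset.range (D + 1), (c k).eval z * eval (f z) g1 ^ k * eval (f z) g0 ^ (D - k) = 0 := by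
  obtain ⟨z, hz⟩ := hQ0
  obtain ⟨s, D', c, hc, ⟨k, hk, x, -, hkx⟩, hrel⟩ := flat_gen isPreconnected_univ
    (σ := fun z => q * z) (fun z _ => by fun_prop)
    (fun _ _ => mem_univ _) (polS_stable q) (orb_pow hq0 hq1 hqr) (fun m => pow_succ' q m)
    (fun j z _ => (hd j).analyticAt z) hy (fun j => (hf j).funEq) hQe ⟨z, mem_univ _, hz⟩
    hQ.funHyp hg0 hg1 hn h
  choose P hP using hc
  have hqs : q ^ s ≠ 0 := pow_ne_zero _ hq0
  refine ⟨D', fun k => psc ((q ^ s)⁻¹) (P k), ⟨k, hk, psc_ne (inv_ne_zero hqs) ?_⟩, fun z => ?_⟩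
  · intro h0
    apply hkx
    rw [hP, h0, Polynomial.eval_zero]
  · have h1 := hrel ((q ^ s)⁻¹ * z) (mem_univ _)
    simp only [iter_mul, mul_inv_cancel_left₀ hqs, hP] at h1
    simp only [psc_eval]
    exact h1

theorem flat_alg {q : ℂ} (hq0 : q ≠ 0) (hqr : ∀ n : ℕ, 0 < n → q ^ n ≠ 1)
    (hd : ∀ j, Differentiable ℂ (fun z => f z j)) (hy : GenPt f univ K w y)
    (hf : ∀ j, QHol q (fun z => f z j)) (hQe : Q.IsHomogeneous e)
    (hQ0 : ∃ z, eval (f z) Q ≠ 0) (hQ : QHyp q (fun z => eval (f z) Q))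
    {D : ℕ} {g0 g1 : MvPolynomial (Fin (N + 1)) ℂ} (hg0 : g0.IsHomogeneous D)
    (hg1 : g1.IsHomogeneous D) (hn : W602.GT.val y g0 ≠ 0)
    (h : AllFlat Q y (W602.GT.val y g1 / W602.GT.val y g0)) :
    ∃ (D : ℕ) (c : ℕ → Polynomial ℂ), (∃ k ≤ D, c k ≠ 0) ∧ ∀ z,
      ∑ k ∈ Finset.range (D + 1), (c k).eval z * eval (f z) g1 ^ k * eval (f z) g0 ^ (D - k) = 0 := by
  rcases le_total ‖q‖ 1 with hq1 | hq1
  · exact flat_alg_aux hq0 hq1 hqr hd hy hf hQe hQ0 hQ hg0 hg1 hn h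
  · refine flat_alg_aux (q := q⁻¹) (inv_ne_zero hq0) ?_ ?_ hd hy (fun j => (hf j).inv hq0) hQe hQ0
      (hQ.inv hq0 (diff_form hd Q) hQ0) hg0 hg1 hn h
    · rw [norm_inv]
      exact inv_le_one_of_one_le₀ hq1
    · intro n hn h1
      rw [inv_pow, inv_eq_one] at h1
      exact hqr n hn h1

/-- flat quotients are meromorphic at infinity -/
theorem mrel_of_flat_q {q : ℂ} (hq0 : q ≠ 0) (hqr : ∀ n : ℕ, 0 < n → q ^ n ≠ 1)
    (hd : ∀ j, Differentiable ℂ (fun z => f z j)) (hy : GenPt f univ K w y)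
    (hf : ∀ j, QHol q (fun z => f z j)) (hQe : Q.IsHomogeneous e)
    (hQ0 : ∃ z, eval (f z) Q ≠ 0) (hQ : QHyp q (fun z => eval (f z) Q))
    {D : ℕ} {g0 g1 : MvPolynomial (Fin (N + 1)) ℂ} (hg0 : g0.IsHomogeneous D)
    (hg1 : g1.IsHomogeneous D) (hn : W602.GT.val y g0 ≠ 0)
    (h : AllFlat Q y (W602.GT.val y g1 / W602.GT.val y g0)) :
    MRel (fun w => eval (f w⁻¹) g1) (fun w => eval (f w⁻¹) g0) := by
  obtain ⟨D', c, ⟨k, hk, hck⟩, hrel⟩ := flat_alg hq0 hqr hd hy hf hQe hQ0 hQ hg0 hg1 hn h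
  have han : ∀ G : MvPolynomial (Fin (N + 1)) ℂ, Pun (fun w => eval (f w⁻¹) G) := fun G =>
    on_pun one_pos (eval_an' (f := fun w => f w⁻¹) (S := PB 1) (an_inv hd) G)
  refine mrel_of_alg (han g1) (han g0) ?_ D' (fun k w => (c k).eval w⁻¹)
    (fun k => mero_poly_inv (c k)) ⟨k, hk, ?_⟩ (Eventually.of_forall fun w => hrel _)
  · exact (hy.inv hd).nz (an_inv hd) ⟨D, hg0⟩ hn
  · intro h0
    apply hck
    obtain ⟨δ, hδ, h1⟩ := ev_iff.1 h0
    let u : ℕ → ℂ := fun n => ((δ / (n + 2) : ℝ) : ℂ)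
    have hpos : ∀ n : ℕ, (0 : ℝ) < δ / (n + 2) := fun n => by positivity
    have hlt : ∀ n : ℕ, δ / ((n : ℝ) + 2) < δ := fun n => by
      rw [div_lt_iff₀ (by positivity)]
      nlinarith [(Nat.cast_nonneg n : (0 : ℝ) ≤ n)]
    have hmem : ∀ n, u n ∈ PB δ := fun n => by
      refine ⟨?_, ?_⟩
      · change ((δ / (n + 2) : ℝ) : ℂ) ≠ 0
        exact_mod_cast (hpos n).ne'
      · change ‖((δ / (n + 2) : ℝ) : ℂ)‖ < δ
        rw [Complex.norm_real, Real.norm_of_nonneg (hpos n).le]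
        exact hlt n
    have hinj : Function.Injective fun n => (u n)⁻¹ := by
      intro a b hab
      have h3 : u a = u b := inv_injective hab
      have h4 : δ / ((a : ℝ) + 2) = δ / (b + 2) := Complex.ofReal_injective h3
      rw [div_eq_div_iff (by positivity) (by positivity)] at h4
      have h5 := mul_left_cancel₀ hδ.ne' h4
      have h6 : (a : ℝ) = b := by linarith
      exact_mod_cast h6
    apply Polynomial.eq_zero_of_infinite_isRoot
    refine (Set.infinite_range_of_injective hinj).mono ?_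
    rintro _ ⟨n, rfl⟩
    exact h1 _ (hmem n)

/-- **The rational case** -/
theorem fam_of_rational (hy : GenPt f univ K w y) (hf : ∀ j, Differentiable ℂ (fun z => f z j))
    (hne : ∀ z, f z ≠ 0) (hQe : Q.IsHomogeneous e)
    (hQ : ∀ z, eval (f z) Q ≠ 0) (hnc : ∃ z w j k, f z j * f w k ≠ f z k * f w j)
    (hext : Extends (fun w => f w⁻¹)) : ∃ r : K, ¬ AllFlat Q y r := by
  obtain ⟨u, P, hu, hfP⟩ := rational_of_extends f hf hne hext
  have hfu : ∀ x, f x = fun j => u x * (P j).eval x := fun x => funext (hfP x)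
  have hPe : ∀ (G : MvPolynomial (Fin (N + 1)) ℂ) (x : ℂ),
      (aeval P G : Polynomial ℂ).eval x = eval (fun j => (P j).eval x) G := by
    intro G x
    have h2 : (aeval P G : Polynomial ℂ).eval x
        = (Polynomial.aeval x : Polynomial ℂ →ₐ[ℂ] ℂ) (aeval P G) := by
      rw [Polynomial.coe_aeval_eq_eval]
    rw [h2, comp_aeval_apply, ← aeval_eq_eval]
    rfl
  have hfe : ∀ (G : MvPolynomial (Fin (N + 1)) ℂ) (d : ℕ), G.IsHomogeneous d → ∀ x,
      eval (f x) G = u x ^ d * (aeval P G : Polynomial ℂ).eval x := by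
    intro G d hG x
    rw [hfu, eval_smul_homog hG, hPe]
  -- the boundary
  have hQP : ∀ x, (aeval P Q : Polynomial ℂ).eval x ≠ 0 := by
    intro x h0
    apply hQ x
    rw [hfe Q e hQe, h0, mul_zero]
  have hQc : ∃ c : ℂ, c ≠ 0 ∧ (aeval P Q : Polynomial ℂ) = Polynomial.C c * Polynomial.X ^ 0 := by
    have h1 : (aeval P Q : Polynomial ℂ).degree = 0 := by
      by_contra hdeg
      obtain ⟨x, hx⟩ := IsAlgClosed.exists_root _ hdeg
      exact hQP x hx
    have h2 := Polynomial.eq_C_of_degree_eq_zero h1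
    refine ⟨(aeval P Q : Polynomial ℂ).coeff 0, ?_, by rw [pow_zero, mul_one]; exact h2⟩
    intro h0
    rw [h0, Polynomial.C_0] at h2
    apply hQP 0
    rw [h2, Polynomial.eval_zero]
  have hF : Fam y Q P 0 := by
    refine ⟨?_, hQc⟩
    rintro G ⟨d, hG⟩
    rw [hy.rel G ⟨d, hG⟩]
    constructor
    · intro h
      apply Polynomial.funext
      intro x
      have h1 := h x (mem_univ x)
      rw [hfe G d hG] at h1
      rw [Polynomial.eval_zero]
      exact (mul_eq_zero.1 h1).resolve_left (pow_ne_zero _ (hu x))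
    · intro h x _
      rw [hfe G d hG, h, Polynomial.eval_zero, mul_zero]
  obtain ⟨s, t, j, k, hst⟩ := hnc
  by_contra hall
  push Not at hall
  -- all quotients are constant
  have hW : ∀ i i', (P i).eval s * (P i').eval t = (P i).eval t * (P i').eval s := by
    intro i i'
    by_cases hi' : y i' = 0
    · have h1 : P i' = 0 := by
        by_contra h2
        exact ((hF.ne i').2 h2) hi'
      rw [h1, Polynomial.eval_zero, Polynomial.eval_zero, mul_zero, mul_zero]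
    · have h1 := hall (y i / y i') ℂ 0 P 0 (by
        rw [Nat.cast_zero]
        exact trdeg_eq_zero_iff.2 inferInstance) hF 1 (X i) (X i') (isHomogeneous_X _ _)
        (isHomogeneous_X _ _) (by rw [val_X]; exact hi') (by rw [val_X, val_X])
      rw [aeval_X, aeval_X] at h1
      exact poly_const h1 s t
  apply hst
  rw [hfP, hfP, hfP, hfP]
  linear_combination (u s * u t) * hW j k

/-- **Entire curves given by linear `q`-difference equations give families of rational curves.** -/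
theorem fam_q {q : ℂ} (hq0 : q ≠ 0) (hqr : ∀ n : ℕ, 0 < n → q ^ n ≠ 1)
    (hd : ∀ j, Differentiable ℂ (fun z => f z j)) (hy : GenPt f univ K w y)
    (hf : ∀ j, QHol q (fun z => f z j)) (hQe : Q.IsHomogeneous e)
    (hne : ∀ z, f z ≠ 0) (hQ : ∀ z, eval (f z) Q ≠ 0)
    (hQh : QHyp q (fun z => eval (f z) Q)) (hnc : ∃ z w j k, f z j * f w k ≠ f z k * f w j) :
    ∃ r : K, ¬ AllFlat Q y r := by
  by_cases hext : Extends (fun w => f w⁻¹)
  · exact fam_of_rational hy hd hne hQe hQ hnc hext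
  obtain ⟨j, k, hj, hk, hjk⟩ : ∃ j k, Nz (fun w => f w⁻¹ j) ∧ Nz (fun w => f w⁻¹ k) ∧
      ¬ MRel (fun w => f w⁻¹ j) (fun w => f w⁻¹ k) := by
    by_contra hcon
    push Not at hcon
    exact hext (extends_of (fun w => f w⁻¹) (an_inv hd) (fun w _ => hne _)
      fun j k hj hk => hcon j k hj hk)
  refine ⟨y j / y k, fun h => hjk ?_⟩
  have hyk : y k ≠ 0 := by
    intro h0
    apply hk
    have h1 := (hy.rel (X k) ⟨1, isHomogeneous_X _ _⟩).1 (by rw [val_X]; exact h0)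
    refine Eventually.of_forall fun z => ?_
    have := h1 z⁻¹ (mem_univ _)
    rwa [eval_X] at this
  have h2 := mrel_of_flat_q hq0 hqr hd hy hf hQe ⟨0, hQ 0⟩ hQh (isHomogeneous_X ℂ k)
    (isHomogeneous_X ℂ j) (by rw [val_X]; exact hyk) (by rw [val_X, val_X]; exact h)
  simpa using h2

end Pool.Agent.TH8.QD
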