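import Pool.Agent.TH8.QD.Orb

/-!
Curves given by linear functional equations: quotients which are constant along all families of
rational curves are algebraic over the coefficients, after an iterate of the map.
-/

set_option autoImplicit false

namespace Pool.Agent.TH8.QD

open MvPolynomial Filter Topology Set Metric Pool.Agent.TH143 Pool.Agent.TH143.GT Pool.Agent.W602.GT
  Pool.Agent.W603.BP Pool.Agent.W603.GR Pool.Agent.W603.BPR Pool.Agent.TH143.DE

variable {N : ℕ} {K : Type} [Field K] [Algebra ℂ K] {w : ℕ} {y : Fin (N + 1) → K}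
  {Q : MvPolynomial (Fin (N + 1)) ℂ} {e : ℕ} {f : ℂ → Fin (N + 1) → ℂ}

/-- `g` satisfies a nonzero linear functional equation `∑ a_k (x) g (σ^k (x)) = 0` on `Ω` with
coefficients in `S`. -/
def FunEq (Ω : Set ℂ) (σ : ℂ → ℂ) (S : Subalgebra ℂ (ℂ → ℂ)) (g : ℂ → ℂ) : Prop :=
  ∃ (r : ℕ) (a : ℕ → ℂ → ℂ), (∀ k, a k ∈ S) ∧ (∃ k ≤ r, ∃ x ∈ Ω, a k x ≠ 0) ∧
    ∀ x ∈ Ω, ∑ k ∈ Finset.range (r + 1), a k x * g (σ^[k] x) = 0

/-- `g` satisfies a functional equation of order one. -/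
def FunHyp (Ω : Set ℂ) (σ : ℂ → ℂ) (S : Subalgebra ℂ (ℂ → ℂ)) (g : ℂ → ℂ) : Prop :=
  ∃ a ∈ S, ∃ b ∈ S, (∃ x ∈ Ω, a x ≠ 0) ∧ ∀ x ∈ Ω, a x * g (σ x) = b x * g x

/-- `g / h` is algebraic over `S` on `Ω`. -/
def AlgQ (Ω : Set ℂ) (S : Subalgebra ℂ (ℂ → ℂ)) (g h : ℂ → ℂ) : Prop :=
  ∃ (D : ℕ) (c : ℕ → ℂ → ℂ), (∀ k, c k ∈ S) ∧ (∃ k ≤ D, ∃ x ∈ Ω, c k x ≠ 0) ∧
    ∀ x ∈ Ω, ∑ k ∈ Finset.range (D + 1), c k x * g x ^ k * h x ^ (D - k) = 0

/-- holomorphic functions on `Ω` -/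
def holS (Ω : Set ℂ) : Subalgebra ℂ (ℂ → ℂ) where
  carrier := {f | AnalyticOnNhd ℂ f Ω}
  mul_mem' := fun hf hg => AnalyticOnNhd.mul hf hg
  add_mem' := fun hf hg => AnalyticOnNhd.add hf hg
  algebraMap_mem' := fun _ => analyticOnNhd_const

theorem holS_stable {Ω : Set ℂ} {σ : ℂ → ℂ} (hσ : AnalyticOnNhd ℂ σ Ω) (hm : MapsTo σ Ω Ω) :
    Stable Ω σ (holS Ω) :=
  ⟨fun _ ha => ha, fun a ha => ⟨fun x => a (σ x), fun x hx =>
    AnalyticAt.comp (g := a) (f := σ) (ha _ (hm hx)) (hσ x hx), fun _ _ => rfl⟩⟩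

theorem flat_gen {Ω : Set ℂ} (hΩ : IsPreconnected Ω) {σ : ℂ → ℂ} (hσa : AnalyticOnNhd ℂ σ Ω)
    (hσm : MapsTo σ Ω Ω) {S : Subalgebra ℂ (ℂ → ℂ)} (hS : Stable Ω σ S) {z : ℕ → ℂ}
    (hz : RelCpt Ω z) (hσ : ∀ m, z (m + 1) = σ (z m))
    (hd : ∀ j, AnalyticOnNhd ℂ (fun z => f z j) Ω) (hy : GenPt f Ω K w y)
    (hf : ∀ j, FunEq Ω σ S (fun z => f z j)) (hQe : Q.IsHomogeneous e)
    (hQ0 : ∃ z ∈ Ω, eval (f z) Q ≠ 0) (hQ : FunHyp Ω σ S (fun z => eval (f z) Q))
    {D : ℕ} {g0 g1 : MvPolynomial (Fin (N + 1)) ℂ} (hg0 : g0.IsHomogeneous D)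
    (hg1 : g1.IsHomogeneous D) (hn : W602.GT.val y g0 ≠ 0)
    (h : AllFlat Q y (W602.GT.val y g1 / W602.GT.val y g0)) :
    ∃ s : ℕ, AlgQ Ω S (fun x => eval (f (σ^[s] x)) g1) (fun x => eval (f (σ^[s] x)) g0) := by
  classical
  by_contra hcon
  push Not at hcon
  have hit : ∀ s x, x ∈ Ω → σ^[s] x ∈ Ω := fun s x hx => hσm.iterate s hx
  have hzΩ : ∀ m, z m ∈ Ω := fun m => by
    obtain ⟨-, C, h1, -, h2⟩ := hz
    exact h1 (h2 m)
  have hzs : ∀ m k, z (m + k) = σ^[k] (z m) := by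
    intro m k
    induction k with
    | zero => rfl
    | succ k ih => rw [← add_assoc, hσ, ih, Function.iterate_succ_apply']
  have hSh : S ≤ holS Ω := fun a ha => hS.an a ha
  have hB := fracB_field hΩ hS hz hσ
  have hA := fracB_field hΩ (holS_stable hσa hσm) hz hσ
  have hev : ∀ {v : ℂ → ℂ}, AnalyticOnNhd ℂ v Ω → (∃ x ∈ Ω, v x ≠ 0) → ∀ᶠ m : ℕ in atTop,
      v (z m) ≠ 0 := by
    intro v hv hv0
    by_contra h1
    obtain ⟨x, hx, hx0⟩ := hv0
    refine hx0 (orb_zero hΩ hz hv ?_ x hx)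
    rw [not_eventually] at h1
    exact h1.mono fun m hm => by push Not at hm; exact hm
  have hform : ∀ G : MvPolynomial (Fin (N + 1)) ℂ, AnalyticOnNhd ℂ (fun x => eval (f x) G) Ω :=
    fun G => eval_an' hd G
  refine main_trans (x := fun m => f (z m)) hB hA (fracB_mono hSh _) hQe ?_ ?_ ?_ ?_ hg1
    hg0 hn ?_ h
  · intro G hG
    rw [hy.rel G hG]
    constructor
    · intro h0
      exact Eventually.of_forall fun m => h0 _ (hzΩ m)
    · intro h0 x hx
      exact orb_zero hΩ hz (hform G) h0.frequently x hx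
  · intro j
    exact frac_mem (S := holS Ω) (hd j)
  · intro j
    obtain ⟨r, a, ha, ha0, h1⟩ := hf j
    exact linRec_of (g := fun z => f z j) hΩ hS hz hσ r a ha ha0 h1
  · obtain ⟨a, haS, b, hbS, ha, hab⟩ := hQ
    have ha' := hev (hS.an a haS) ha
    refine ⟨hev (hform Q) hQ0, fun m => b (z m) / a (z m),
      ⟨b, hbS, a, haS, ha', Eventually.of_forall fun m => rfl⟩, ?_⟩
    filter_upwards [ha'] with m hm
    have h1 := hab (z m) (hzΩ m)
    rw [hσ m, div_mul_eq_mul_div, eq_div_iff hm, ← h1]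
    ring
  · intro s D b hb hrel
    choose α hα β hβ hβ0 hbe using hb
    set c : ℕ → ℂ → ℂ := fun k => α k * ∏ l ∈ (Finset.range (D + 1)).erase k, β l with hc
    have hcS : ∀ k, c k ∈ S := fun k => S.mul_mem (hα k) (S.prod_mem fun l _ => hβ l)
    have hce : ∀ k x, c k x = α k x * ∏ l ∈ (Finset.range (D + 1)).erase k, β l x := by
      intro k x
      rw [hc]
      simp only [Pi.mul_apply, Finset.prod_apply]
    have hβall : ∀ᶠ m : ℕ in atTop, ∀ k ∈ Finset.range (D + 1), β k (z m) ≠ 0 := by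
      rw [Filter.eventually_all_finset]
      intro k _
      exact hβ0 k
    have hball : ∀ᶠ m : ℕ in atTop, ∀ k ∈ Finset.range (D + 1), b k m = α k (z m) / β k (z m) := by
      rw [Filter.eventually_all_finset]
      intro k _
      exact hbe k
    have hv : AnalyticOnNhd ℂ (fun x => ∑ k ∈ Finset.range (D + 1), c k x *
        eval (f (σ^[s] x)) g1 ^ k * eval (f (σ^[s] x)) g0 ^ (D - k)) Ω := by
      have hσs : AnalyticOnNhd ℂ (σ^[s]) Ω := by
        induction s with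
        | zero => exact analyticOnNhd_id
        | succ s ih =>
          intro x hx
          rw [Function.iterate_succ']
          have hh : AnalyticOnNhd ℂ (σ^[s]) Ω := by
            clear hrel ih
            induction s with
            | zero => exact analyticOnNhd_id
            | succ s ih' =>
              intro x hx
              rw [Function.iterate_succ']
              exact AnalyticAt.comp (hσa _ (hit s x hx)) (ih' x hx)
          exact AnalyticAt.comp (hσa _ (hit s x hx)) (hh x hx)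
      have h2 : ∀ G : MvPolynomial (Fin (N + 1)) ℂ,
          AnalyticOnNhd ℂ (fun x => eval (f (σ^[s] x)) G) Ω := fun G x hx =>
        AnalyticAt.comp (g := fun x => eval (f x) G) (f := σ^[s]) (hform G _ (hit s x hx))
          (hσs x hx)
      have h3 : ∀ k ∈ Finset.range (D + 1), AnalyticOnNhd ℂ (fun x => c k x *
          eval (f (σ^[s] x)) g1 ^ k * eval (f (σ^[s] x)) g0 ^ (D - k)) Ω := fun k _ x hx =>
        ((hS.an _ (hcS k) x hx).fun_mul ((h2 g1 x hx).fun_pow k)).fun_mul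
          ((h2 g0 x hx).fun_pow (D - k))
      intro x hx
      exact Finset.analyticAt_fun_sum _ fun k hk => h3 k hk x hx
    have hv0 : ∀ᶠ m : ℕ in atTop, ∑ k ∈ Finset.range (D + 1), c k (z m) *
        eval (f (σ^[s] (z m))) g1 ^ k * eval (f (σ^[s] (z m))) g0 ^ (D - k) = 0 := by
      filter_upwards [hrel, hβall, hball] with m h1 h2 h3
      rw [← hzs m s]
      have h5 : ∑ k ∈ Finset.range (D + 1), c k (z m) *
          eval (f (z (m + s))) g1 ^ k * eval (f (z (m + s))) g0 ^ (D - k) =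
          (∏ l ∈ Finset.range (D + 1), β l (z m)) * ∑ k ∈ Finset.range (D + 1), b k m *
          eval (f (z (m + s))) g1 ^ k * eval (f (z (m + s))) g0 ^ (D - k) := by
        rw [Finset.mul_sum]
        refine Finset.sum_congr rfl fun k hk => ?_
        rw [hce, ← Finset.mul_prod_erase _ _ hk, h3 k hk]
        have := h2 k hk
        field_simp
      rw [h5, h1, mul_zero]
    have hzero := orb_zero hΩ hz hv hv0.frequently
    have hc0 : ∀ k ≤ D, ∀ x ∈ Ω, c k x = 0 := by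
      by_contra h1
      push Not at h1
      exact hcon s ⟨D, c, hcS, h1, hzero⟩
    intro k hk
    have hk' : k ∈ Finset.range (D + 1) := Finset.mem_range.2 (Nat.lt_succ_of_le hk)
    filter_upwards [hβall, hball] with m h2 h3
    rw [h3 k hk']
    have h4 := hc0 k hk (z m) (hzΩ m)
    rw [hce] at h4
    have h5 : ∏ l ∈ (Finset.range (D + 1)).erase k, β l (z m) ≠ 0 :=
      Finset.prod_ne_zero_iff.2 fun l hl => h2 l (Finset.mem_of_mem_erase hl)
    rw [(mul_eq_zero.1 h4).resolve_right h5, zero_div]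

end Pool.Agent.TH8.QD
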