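import Pool.Agent.TH8.QD.Trans
import Pool.Agent.TH143.GT.Fin

/-!
Sequences given by quotients of holomorphic functions along a relatively compact orbit.
-/

set_option autoImplicit false

namespace Pool.Agent.TH8.QD

open MvPolynomial Filter Topology Set Pool.Agent.TH143 Pool.Agent.TH143.GT Pool.Agent.W602.GT
  Pool.Agent.W603.BP Pool.Agent.W603.GR Pool.Agent.W603.BPR Pool.Agent.TH143.DE

/-- `z 0, z 1, ...` are different points of a compact subset of `Ω`. -/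
def RelCpt (Ω : Set ℂ) (z : ℕ → ℂ) : Prop :=
  Function.Injective z ∧ ∃ C ⊆ Ω, IsCompact C ∧ ∀ m, z m ∈ C

/-- identity theorem along a relatively compact sequence -/
theorem orb_zero {Ω : Set ℂ} (hΩ : IsPreconnected Ω) {z : ℕ → ℂ} (hz : RelCpt Ω z) {v : ℂ → ℂ}
    (hv : AnalyticOnNhd ℂ v Ω) (h0 : ∃ᶠ m in atTop, v (z m) = 0) : ∀ x ∈ Ω, v x = 0 := by
  obtain ⟨hinj, C, hCΩ, hC, hzC⟩ := hz
  have hS : {m | v (z m) = 0}.Infinite := Nat.frequently_atTop_iff_infinite.1 h0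
  have hS' : (z '' {m | v (z m) = 0}).Infinite := hS.image hinj.injOn
  obtain ⟨c, hcC, hc⟩ := hS'.exists_accPt_of_subset_isCompact hC (by
    rintro _ ⟨m, -, rfl⟩
    exact hzC m)
  have h1 : ∃ᶠ w in 𝓝[≠] c, v w = 0 := by
    rw [accPt_principal_iff_nhdsWithin] at hc
    have h2 := hc
    rw [Filter.frequently_iff]
    intro U hU
    rw [mem_nhdsWithin_iff_exists_mem_nhds_inter] at hU
    obtain ⟨V, hV, hVU⟩ := hU
    have h3 : (z '' {m | v (z m) = 0} \ {c}) ∩ V ∈ 𝓝[z '' {m | v (z m) = 0} \ {c}] c :=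
      inter_mem_nhdsWithin _ hV
    obtain ⟨w, ⟨⟨m, hm, rfl⟩, hwc⟩, hwV⟩ := h2.nonempty_of_mem h3
    exact ⟨z m, hVU ⟨hwV, hwc⟩, hm⟩
  intro x hx
  exact hv.eqOn_zero_of_preconnected_of_frequently_eq_zero hΩ (hCΩ hcC) h1 hx

/-- the sequences which are, from some index on, quotients `a (z m) / b (z m)`, `a, b` in `S` -/
def fracB (S : Subalgebra ℂ (ℂ → ℂ)) (z : ℕ → ℂ) : Subalgebra ℂ (ℕ → ℂ) where
  carrier := {f | ∃ a ∈ S, ∃ b ∈ S, (∀ᶠ m in atTop, b (z m) ≠ 0) ∧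
    ∀ᶠ m in atTop, f m = a (z m) / b (z m)}
  mul_mem' := by
    rintro f g ⟨a, ha, b, hb, h1, h2⟩ ⟨a', ha', b', hb', h1', h2'⟩
    refine ⟨a * a', S.mul_mem ha ha', b * b', S.mul_mem hb hb', ?_, ?_⟩
    · filter_upwards [h1, h1'] with m e1 e2
      exact mul_ne_zero e1 e2
    · filter_upwards [h2, h2'] with m e1 e2
      rw [Pi.mul_apply, e1, e2, Pi.mul_apply, Pi.mul_apply, div_mul_div_comm]
  add_mem' := by
    rintro f g ⟨a, ha, b, hb, h1, h2⟩ ⟨a', ha', b', hb', h1', h2'⟩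
    refine ⟨a * b' + b * a', S.add_mem (S.mul_mem ha hb') (S.mul_mem hb ha'), b * b',
      S.mul_mem hb hb', ?_, ?_⟩
    · filter_upwards [h1, h1'] with m e1 e2
      exact mul_ne_zero e1 e2
    · filter_upwards [h1, h1', h2, h2'] with m e1 e1' e2 e2'
      rw [Pi.add_apply, e2, e2', div_add_div _ _ e1 e1']
      rfl
  algebraMap_mem' := fun c => ⟨algebraMap ℂ _ c, S.algebraMap_mem c, 1, S.one_mem,
    Eventually.of_forall fun m => one_ne_zero, Eventually.of_forall fun m => by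
      rw [Pi.one_apply, div_one]
      rfl⟩

theorem frac_mem {S : Subalgebra ℂ (ℂ → ℂ)} {z : ℕ → ℂ} {a : ℂ → ℂ} (ha : a ∈ S) :
    (fun m => a (z m)) ∈ fracB S z :=
  ⟨a, ha, 1, S.one_mem, Eventually.of_forall fun m => one_ne_zero, Eventually.of_forall fun m => by
    rw [Pi.one_apply, div_one]⟩

theorem fracB_mono {S S' : Subalgebra ℂ (ℂ → ℂ)} (h : S ≤ S') (z : ℕ → ℂ) :
    fracB S z ≤ fracB S' z := by
  rintro f ⟨a, ha, b, hb, h1, h2⟩
  exact ⟨a, h ha, b, h hb, h1, h2⟩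

/-- `S` consists of holomorphic functions on `Ω` and is closed under composition with `σ`. -/
structure Stable (Ω : Set ℂ) (σ : ℂ → ℂ) (S : Subalgebra ℂ (ℂ → ℂ)) : Prop where
  an : ∀ a ∈ S, AnalyticOnNhd ℂ a Ω
  comp : ∀ a ∈ S, ∃ b ∈ S, ∀ x ∈ Ω, b x = a (σ x)

theorem fracB_field {Ω : Set ℂ} (hΩ : IsPreconnected Ω) {σ : ℂ → ℂ} {S : Subalgebra ℂ (ℂ → ℂ)}
    (hS : Stable Ω σ S) {z : ℕ → ℂ} (hz : RelCpt Ω z) (hσ : ∀ m, z (m + 1) = σ (z m)) :
    CoefField (fracB S z) := by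
  have hzΩ : ∀ m, z m ∈ Ω := fun m => by
    obtain ⟨-, C, h1, -, h2⟩ := hz
    exact h1 (h2 m)
  have hdich : ∀ a ∈ S, (∀ m, a (z m) = 0) ∨ ∀ᶠ m in atTop, a (z m) ≠ 0 := by
    intro a ha
    by_cases h : ∀ᶠ m in atTop, a (z m) ≠ 0
    · exact Or.inr h
    · left
      have h1 : ∃ᶠ m in atTop, a (z m) = 0 := by
        intro h2
        exact h (h2.mono fun m hm => hm)
      exact fun m => orb_zero hΩ hz (hS.an a ha) h1 _ (hzΩ m)
  refine ⟨⟨?_, ?_⟩, ?_⟩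
  · rintro f ⟨a, ha, b, hb, h1, h2⟩
    obtain ⟨a', ha', ea⟩ := hS.comp a ha
    obtain ⟨b', hb', eb⟩ := hS.comp b hb
    refine ⟨a', ha', b', hb', ?_, ?_⟩
    · filter_upwards [eventually_shift h1 1] with m hm
      rwa [eb _ (hzΩ m), ← hσ]
    · filter_upwards [eventually_shift h2 1] with m hm
      rw [hm, eb _ (hzΩ m), ea _ (hzΩ m), ← hσ]
  · rintro f ⟨a, ha, b, hb, h1, h2⟩
    rcases hdich a ha with h | h
    · left
      filter_upwards [h2] with m hm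
      rw [hm, h m, zero_div]
    · right
      filter_upwards [h1, h2, h] with m e1 e2 e3
      rw [e2]
      exact div_ne_zero e3 e1
  · rintro f ⟨a, ha, b, hb, h1, h2⟩
    rcases hdich a ha with h | h
    · refine ⟨0, S.zero_mem, 1, S.one_mem, Eventually.of_forall fun m => one_ne_zero, ?_⟩
      filter_upwards [h2] with m hm
      rw [hm, h m, zero_div, inv_zero, Pi.zero_apply, zero_div]
    · refine ⟨b, hb, a, ha, h, ?_⟩
      filter_upwards [h2] with m hm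
      rw [hm, inv_div]

/-- a functional equation along the orbit -/
theorem linRec_of {Ω : Set ℂ} (hΩ : IsPreconnected Ω) {σ : ℂ → ℂ} {S : Subalgebra ℂ (ℂ → ℂ)}
    (hS : Stable Ω σ S) {z : ℕ → ℂ} (hz : RelCpt Ω z) (hσ : ∀ m, z (m + 1) = σ (z m))
    {g : ℂ → ℂ} (r : ℕ) (a : ℕ → ℂ → ℂ) (ha : ∀ k, a k ∈ S) (h0 : ∃ k ≤ r, ∃ x ∈ Ω, a k x ≠ 0)
    (h : ∀ x ∈ Ω, ∑ k ∈ Finset.range (r + 1), a k x * g (σ^[k] x) = 0) :
    LinRec (fracB S z) (fun m => g (z m)) := by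
  have hzΩ : ∀ m, z m ∈ Ω := fun m => by
    obtain ⟨-, C, h1, -, h2⟩ := hz
    exact h1 (h2 m)
  have hit : ∀ m k, z (m + k) = σ^[k] (z m) := by
    intro m k
    induction k with
    | zero => rfl
    | succ k ih =>
      rw [← add_assoc, hσ, ih, Function.iterate_succ_apply']
  obtain ⟨k, hk, x, hx, hkx⟩ := h0
  refine ⟨r, fun k m => a k (z m), fun k => frac_mem (ha k), ⟨k, hk, fun hev => ?_⟩,
    Eventually.of_forall fun m => ?_⟩
  · exact hkx (orb_zero hΩ hz (hS.an _ (ha k)) hev.frequently x hx)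
  · have := h (z m) (hzΩ m)
    simpa only [hit] using this

end Pool.Agent.TH8.QD
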